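import Pool.Agent.NPC.Defs

/-!
# Single-vehicle scheduling on a path with release and handling times
-/

namespace Pool.Agent.K4H52.VSP

open Pool.Agent.NPC

/-- An instance of the decision problem. It consists of the index of the start vertex, the bound
`K`, the list of the jobs, one for each vertex, in the order of the vertices along the path, each
given by its release time and its handling time, and the list of the edges of the path, in the same
order, each given by its travel time to the right and its travel time to the left. -/
abbrev Inst : Type := (ℕ × ℕ) × List (ℕ × ℕ) × List (ℕ × ℕ)

namespace Inst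

/-- the start vertex -/
def start (I : Inst) : ℕ := I.1.1
/-- the bound on the completion time -/
def bound (I : Inst) : ℕ := I.1.2
/-- the jobs -/
def jobs (I : Inst) : List (ℕ × ℕ) := I.2.1
/-- the edges -/
def edges (I : Inst) : List (ℕ × ℕ) := I.2.2
/-- the release time of the job at the vertex `v` -/
def release (I : Inst) (v : ℕ) : ℕ := (I.jobs.getD v (0, 0)).1
/-- the handling time of the job at the vertex `v` -/
def handling (I : Inst) (v : ℕ) : ℕ := (I.jobs.getD v (0, 0)).2
/-- the travel time from the vertex `u` to the vertex `v` -/
def travel (I : Inst) (u v : ℕ) : ℕ :=
  if u ≤ v then ∑ e ∈ Finset.Ico u v, (I.edges.getD e (0, 0)).1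
  else ∑ e ∈ Finset.Ico v u, (I.edges.getD e (0, 0)).2
/-- The time at which the vehicle is back at the start vertex, if it is at the vertex `u` at time
`t` and still has to process the jobs of the list `π`, in this order. -/
def completion (I : Inst) : ℕ → ℕ → List ℕ → ℕ
  | u, t, [] => t + I.travel u I.start
  | u, t, v :: π => I.completion v (max (t + I.travel u v) (I.release v) + I.handling v) π
/-- The instance describes a path with a start vertex, and all handling times are positive. -/
def Valid (I : Inst) : Prop :=
  I.start < I.jobs.length ∧ I.edges.length + 1 = I.jobs.length ∧ ∀ p ∈ I.jobs, 0 < p.2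
/-- Some schedule, that is, some permutation of all the jobs, has completion time at most `K`. -/
def Feasible (I : Inst) : Prop :=
  ∃ π : List ℕ, π.Perm (List.range I.jobs.length) ∧ I.completion I.start 0 π ≤ I.bound
/-- All travel times are symmetric and positive and the start vertex is an end of the path. -/
def SymEnd (I : Inst) : Prop := I.start = 0 ∧ ∀ p ∈ I.edges, p.1 = p.2 ∧ 0 < p.1

end Inst

/-- The decision problem: single-vehicle scheduling on a path with release times and positive
handling times. -/
def PathVSP (I : Inst) : Prop := I.Valid ∧ I.Feasible

/-- The same for symmetric positive travel times and a start vertex at an end of the path. -/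
def PathVSPSymEnd (I : Inst) : Prop := I.Valid ∧ I.SymEnd ∧ I.Feasible

end Pool.Agent.K4H52.VSP
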