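import Mathlib
import Pool.Agent.K4H52.VSP.Defs

/-!
# General facts: lengths of tours, bounds for completion times
-/

namespace Pool.Agent.K4H52.VSP

open Pool.Agent.NPC

/-- length of a tour for a distance function -/
def plen (δ : ℕ → ℕ → ℕ) : List ℕ → ℕ
  | [] => 0
  | [_] => 0
  | a :: b :: l => δ a b + plen δ (b :: l)

@[simp] theorem plen_nil (δ : ℕ → ℕ → ℕ) : plen δ [] = 0 := rfl
@[simp] theorem plen_single (δ : ℕ → ℕ → ℕ) (a : ℕ) : plen δ [a] = 0 := rfl
@[simp] theorem plen_cons_cons (δ : ℕ → ℕ → ℕ) (a b : ℕ) (l : List ℕ) :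
    plen δ (a :: b :: l) = δ a b + plen δ (b :: l) := rfl

theorem plen_cons_le (δ : ℕ → ℕ → ℕ) (tri : ∀ a b c, δ a c ≤ δ a b + δ b c) (a b : ℕ) (l : List ℕ) :
    plen δ (a :: l) ≤ δ a b + plen δ (b :: l) := by
  cases l with
  | nil => simp
  | cons c l =>
    rw [plen_cons_cons, plen_cons_cons]
    have := tri a b c
    omega

theorem plen_sublist (δ : ℕ → ℕ → ℕ) (tri : ∀ a b c, δ a c ≤ δ a b + δ b c) {l' l : List ℕ}
    (h : l'.Sublist l) : ∀ a, plen δ (a :: l') ≤ plen δ (a :: l) := by
  induction h with
  | slnil => intro a; exact le_refl _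
  | @cons l' l b h ih =>
    intro a
    exact (ih a).trans ((plen_cons_le δ tri a b l).trans (by rw [plen_cons_cons]))
  | @cons_cons l' l b h ih =>
    intro a
    rw [plen_cons_cons, plen_cons_cons]
    have := ih b
    omega

/-- the edge `e` (between the vertices `e` and `e + 1`) separates `a` and `b` -/
def sep (e a b : ℕ) : ℕ := if (a ≤ e ∧ e < b) ∨ (b ≤ e ∧ e < a) then 1 else 0

theorem sep_tri (e a b c : ℕ) : sep e a c ≤ sep e a b + sep e b c := by
  unfold sep
  split_ifs <;> omega

theorem plen_sum (s : Finset ℕ) (w : ℕ → ℕ) (δ : ℕ → ℕ → ℕ → ℕ) (l : List ℕ) :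
    plen (fun a b => ∑ e ∈ s, w e * δ e a b) l = ∑ e ∈ s, w e * plen (δ e) l := by
  induction l with
  | nil => simp
  | cons a l ih =>
    cases l with
    | nil => simp
    | cons b l =>
      rw [plen_cons_cons, ih, ← Finset.sum_add_distrib]
      refine Finset.sum_congr rfl fun e _ => ?_
      rw [plen_cons_cons, mul_add]

theorem plen_congr {δ δ' : ℕ → ℕ → ℕ} (h : ∀ a b, δ a b = δ' a b) (l : List ℕ) :
    plen δ l = plen δ' l := by
  have : δ = δ' := by funext a b; exact h a b
  rw [this]

namespace Inst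

/-- travel time of the edge `e` to the right -/
def w (I : Inst) (e : ℕ) : ℕ := (I.edges.getD e (0, 0)).1

/-- position -/
def X (I : Inst) (v : ℕ) : ℕ := ∑ e ∈ Finset.range v, I.w e

theorem w_eq_zero (I : Inst) {e : ℕ} (he : I.edges.length ≤ e) : I.w e = 0 := by
  unfold w
  rw [List.getD_eq_default _ _ he]

theorem snd_eq (I : Inst) (hs : ∀ p ∈ I.edges, p.1 = p.2) (e : ℕ) :
    (I.edges.getD e (0, 0)).2 = I.w e := by
  unfold w
  by_cases he : e < I.edges.length
  · rw [List.getD_eq_getElem _ _ he]
    exact (hs _ (List.getElem_mem he)).symm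
  · rw [List.getD_eq_default _ _ (by omega)]

theorem travel_right (I : Inst) {u v : ℕ} (h : u ≤ v) : I.travel u v + I.X u = I.X v := by
  unfold travel X
  rw [if_pos h, add_comm]
  exact Finset.sum_range_add_sum_Ico (fun e => I.w e) h

theorem travel_left (I : Inst) (hs : ∀ p ∈ I.edges, p.1 = p.2) {u v : ℕ} (h : v ≤ u) :
    I.travel u v + I.X v = I.X u := by
  rcases h.eq_or_lt with h | h
  · rw [h]
    have := travel_right I (le_refl u)
    exact this
  · unfold travel X
    rw [if_neg (by omega), add_comm]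
    have : ∑ e ∈ Finset.Ico v u, (I.edges.getD e (0, 0)).2 = ∑ e ∈ Finset.Ico v u, I.w e :=
      Finset.sum_congr rfl fun e _ => snd_eq I hs e
    rw [this]
    exact Finset.sum_range_add_sum_Ico (fun e => I.w e) h.le

theorem travel_eq (I : Inst) (hs : ∀ p ∈ I.edges, p.1 = p.2) (u v : ℕ) :
    I.travel u v = ∑ e ∈ Finset.range I.edges.length, I.w e * sep e u v := by
  have key : ∀ u v : ℕ, u ≤ v → ∑ e ∈ Finset.Ico u v, I.w e =
      ∑ e ∈ Finset.range I.edges.length, I.w e * (if u ≤ e ∧ e < v then 1 else 0) := by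
    intro u v _
    have h1 : ∑ e ∈ Finset.range I.edges.length, I.w e * (if u ≤ e ∧ e < v then 1 else 0) =
        ∑ e ∈ Finset.range (max I.edges.length v), I.w e * (if u ≤ e ∧ e < v then 1 else 0) := by
      apply Finset.sum_subset
      · intro e he
        rw [Finset.mem_range] at he ⊢
        omega
      · intro e _ he
        rw [Finset.mem_range, not_lt] at he
        rw [w_eq_zero I he, zero_mul]
    rw [h1]
    have h2 : ∑ e ∈ Finset.range (max I.edges.length v), I.w e * (if u ≤ e ∧ e < v then 1 else 0) =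
        ∑ e ∈ Finset.range (max I.edges.length v), (if u ≤ e ∧ e < v then I.w e else 0) :=
      Finset.sum_congr rfl fun e _ => by split_ifs <;> simp
    rw [h2, ← Finset.sum_filter]
    refine Finset.sum_congr ?_ fun _ _ => rfl
    ext e
    simp only [Finset.mem_Ico, Finset.mem_filter, Finset.mem_range]
    omega
  unfold travel
  split_ifs with h
  · have : ∑ e ∈ Finset.Ico u v, (I.edges.getD e (0, 0)).1 = ∑ e ∈ Finset.Ico u v, I.w e := rfl
    rw [this, key u v h]
    refine Finset.sum_congr rfl fun e _ => ?_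
    unfold sep
    have : ((u ≤ e ∧ e < v) ∨ (v ≤ e ∧ e < u)) ↔ (u ≤ e ∧ e < v) := by omega
    simp only [this]
  · have : ∑ e ∈ Finset.Ico v u, (I.edges.getD e (0, 0)).2 = ∑ e ∈ Finset.Ico v u, I.w e :=
      Finset.sum_congr rfl fun e _ => snd_eq I hs e
    rw [this, key v u (by omega)]
    refine Finset.sum_congr rfl fun e _ => ?_
    unfold sep
    have : ((u ≤ e ∧ e < v) ∨ (v ≤ e ∧ e < u)) ↔ (v ≤ e ∧ e < u) := by omega
    simp only [this]

theorem travel_tri (I : Inst) (hs : ∀ p ∈ I.edges, p.1 = p.2) (a b c : ℕ) :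
    I.travel a c ≤ I.travel a b + I.travel b c := by
  rw [travel_eq I hs, travel_eq I hs, travel_eq I hs, ← Finset.sum_add_distrib]
  refine Finset.sum_le_sum fun e _ => ?_
  rw [← mul_add]
  exact Nat.mul_le_mul_left _ (sep_tri e a b c)

theorem plen_travel (I : Inst) (hs : ∀ p ∈ I.edges, p.1 = p.2) (l : List ℕ) :
    plen I.travel l = ∑ e ∈ Finset.range I.edges.length, I.w e * plen (sep e) l := by
  rw [plen_congr (travel_eq I hs), plen_sum]

theorem completion_nil (I : Inst) (u t : ℕ) : I.completion u t [] = t + I.travel u I.start := rfl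

theorem completion_cons (I : Inst) (u t v : ℕ) (π : List ℕ) : I.completion u t (v :: π) =
    I.completion v (max (t + I.travel u v) (I.release v) + I.handling v) π := rfl

theorem completion_mono (I : Inst) (π : List ℕ) : ∀ u t t', t ≤ t' →
    I.completion u t π ≤ I.completion u t' π := by
  induction π with
  | nil => intro u t t' h; rw [completion_nil, completion_nil]; omega
  | cons v π ih =>
    intro u t t' h
    rw [completion_cons, completion_cons]
    exact ih _ _ _ (by omega)

theorem lower1 (I : Inst) (π : List ℕ) : ∀ u t,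
    t + plen I.travel (u :: (π ++ [I.start])) + (π.map I.handling).sum ≤ I.completion u t π := by
  induction π with
  | nil => intro u t; simp [completion_nil]
  | cons v π ih =>
    intro u t
    rw [completion_cons]
    have h1 := ih v (max (t + I.travel u v) (I.release v) + I.handling v)
    rw [List.cons_append, plen_cons_cons, List.map_cons, List.sum_cons]
    omega

theorem lower2 (I : Inst) (π₂ : List ℕ) (v : ℕ) (π₁ : List ℕ) : ∀ u t,
    I.release v + I.handling v + plen I.travel (v :: (π₂ ++ [I.start])) +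
      (π₂.map I.handling).sum ≤ I.completion u t (π₁ ++ v :: π₂) := by
  induction π₁ with
  | nil =>
    intro u t
    rw [List.nil_append, completion_cons]
    have h1 := lower1 I π₂ v (max (t + I.travel u v) (I.release v) + I.handling v)
    omega
  | cons a π₁ ih =>
    intro u t
    rw [List.cons_append, completion_cons]
    exact ih _ _

/-- After the jobs of `l` the vehicle is at `u`, at time at most `T`. -/
def Reach (I : Inst) (l : List ℕ) (u T : ℕ) : Prop :=
  ∀ r : List ℕ, I.completion I.start 0 (l ++ r) ≤ I.completion u T r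

theorem reach_nil (I : Inst) : I.Reach [] I.start 0 := fun _ => le_refl _

theorem Reach.snoc {I : Inst} {l : List ℕ} {u T : ℕ} (h : I.Reach l u T) (v T' : ℕ)
    (h1 : T + I.travel u v + I.handling v ≤ T') (h2 : I.release v + I.handling v ≤ T') :
    I.Reach (l ++ [v]) v T' := by
  intro r
  rw [List.append_assoc]
  refine (h _).trans ?_
  rw [List.singleton_append, completion_cons]
  exact completion_mono I r _ _ _ (by omega)

end Inst

theorem sum_range_odd (F : ℕ → ℕ) (n : ℕ) : ∑ e ∈ Finset.range (2 * n + 1), F e =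
    ∑ i ∈ Finset.range n, (F (2 * i) + F (2 * i + 1)) + F (2 * n) := by
  induction n with
  | zero => simp
  | succ n ih =>
    have : 2 * (n + 1) + 1 = 2 * n + 1 + 1 + 1 := by ring
    rw [this, Finset.sum_range_succ, Finset.sum_range_succ, ih, Finset.sum_range_succ]
    have h2 : 2 * (n + 1) = 2 * n + 1 + 1 := by ring
    rw [h2]
    ring

theorem sum_getD (l : List ℕ) : ∑ i ∈ Finset.range l.length, l.getD i 0 = l.sum := by
  induction l with
  | nil => simp
  | cons a l ih =>
    rw [List.length_cons, Finset.sum_range_succ', List.sum_cons, ← ih]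
    simp [add_comm]

end Pool.Agent.K4H52.VSP
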