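import Mathlib
import Pool.Agent.K4H52.VSP.Gen
import Pool.Agent.H671R2.SubsetSum

/-!
# The reduction
-/

namespace Pool.Agent.K4H52.VSP

open Pool.Agent.NPC Pool.Agent.NPC.R671.SS

/-- Selections of list entries. -/
theorem sublist_sum_iff : ∀ (l : List ℕ) (T : ℕ), (∃ s : List ℕ, s.Sublist l ∧ s.sum = T) ↔
    ∃ b : ℕ → Bool, (∑ k ∈ Finset.range l.length, if b k then l.getD k 0 else 0) = T := by
  intro l
  induction l with
  | nil =>
    intro T
    constructor
    · rintro ⟨t, ht, hT⟩
      rw [List.sublist_nil] at ht
      subst ht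
      exact ⟨fun _ => false, by simpa using hT⟩
    · rintro ⟨c, hc⟩
      exact ⟨[], List.Sublist.refl _, by simpa using hc⟩
  | cons a l ih =>
    intro T
    constructor
    · rintro ⟨t, ht, hT⟩
      rcases List.sublist_cons_iff.1 ht with h | ⟨r, rfl, hr⟩
      · obtain ⟨c, hc⟩ := (ih T).1 ⟨t, h, hT⟩
        refine ⟨fun k => if k = 0 then false else c (k - 1), ?_⟩
        rw [List.length_cons, Finset.sum_range_succ']
        simpa using hc
      · rw [List.sum_cons] at hT
        obtain ⟨c, hc⟩ := (ih r.sum).1 ⟨r, hr, rfl⟩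
        refine ⟨fun k => if k = 0 then true else c (k - 1), ?_⟩
        rw [List.length_cons, Finset.sum_range_succ']
        simp only [Nat.add_eq_zero_iff, one_ne_zero, and_false, if_false, Nat.add_sub_cancel,
          List.getD_cons_succ, if_true, List.getD_cons_zero]
        rw [← hT, ← hc]
        simp [add_comm]
    · rintro ⟨c, hc⟩
      rw [List.length_cons, Finset.sum_range_succ'] at hc
      simp only [List.getD_cons_succ, List.getD_cons_zero] at hc
      obtain ⟨t, ht, hT⟩ := (ih _).2 ⟨fun i => c (i + 1), rfl⟩
      by_cases h : c 0 = true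
      · refine ⟨a :: t, ht.cons_cons a, ?_⟩
        rw [List.sum_cons, hT, ← hc, if_pos h, add_comm]
      · refine ⟨t, ht.cons a, ?_⟩
        rw [hT, ← hc, if_neg h, add_zero]

section defs
variable (x : List ℕ × ℕ)

/-- length of the path -/
def LL : ℕ := x.1.sum + x.1.length + 1
/-- handling time of a station -/
def HH : ℕ := LL x + 2 * x.1.sum + 2 * x.2 + 1
/-- handling time of the stations and of the start vertex -/
def MM : ℕ := 1 + x.1.length * HH x
/-- release time of the far job -/
def RR : ℕ := LL x + MM x + 4 * x.2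
/-- the jobs -/
def jobf (v : ℕ) : ℕ × ℕ :=
  if v = 0 then (0, 1) else if v = 2 * x.1.length + 1 then (RR x, 1) else
    if v % 2 = 1 then ((v / 2) * HH x + (LL x + 2 * x.1.sum + 2 * x.2 + 2), 2 * x.1.getD (v / 2) 0)
    else (0, HH x)
/-- the edges -/
def edgef (e : ℕ) : ℕ × ℕ :=
  if e % 2 = 1 then (x.1.getD (e / 2) 0, x.1.getD (e / 2) 0) else (1, 1)
/-- the bound -/
def KK : ℕ := 2 * LL x + MM x + 2 * x.1.sum + 1 + 2 * x.2
/-- the instance -/
def red : Inst := ((0, KK x), (List.range (2 * x.1.length + 2)).map (fun v => jobf x v),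
  (List.range (2 * x.1.length + 1)).map (fun e => edgef x e))

end defs

theorem getD_map_range {α : Type} (N : ℕ) (f : ℕ → α) (d : α) {k : ℕ} (hk : k < N) :
    ((List.range N).map f).getD k d = f k := by
  simp [List.getD, hk]

section facts
variable (x : List ℕ × ℕ)

theorem red_start : (red x).start = 0 := rfl
theorem red_bound : (red x).bound = KK x := rfl
theorem red_jobs_length : (red x).jobs.length = 2 * x.1.length + 2 := by simp [red, Inst.jobs]
theorem red_edges_length : (red x).edges.length = 2 * x.1.length + 1 := by simp [red, Inst.edges]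

theorem red_sym : ∀ p ∈ (red x).edges, p.1 = p.2 := by
  intro p hp
  simp only [red, Inst.edges, List.mem_map, List.mem_range] at hp
  obtain ⟨e, _, rfl⟩ := hp
  unfold edgef
  split_ifs <;> rfl

theorem red_pos (hx : ∀ a ∈ x.1, 0 < a) : ∀ p ∈ (red x).edges, 0 < p.1 := by
  intro p hp
  simp only [red, Inst.edges, List.mem_map, List.mem_range] at hp
  obtain ⟨e, he, rfl⟩ := hp
  unfold edgef
  split_ifs with h
  · have : e / 2 < x.1.length := by omega
    show 0 < x.1.getD (e / 2) 0
    rw [List.getD_eq_getElem _ _ this]
    exact hx _ (List.getElem_mem this)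
  · norm_num

theorem red_valid (hx : ∀ a ∈ x.1, 0 < a) : (red x).Valid := by
  refine ⟨?_, ?_, ?_⟩
  · rw [red_start, red_jobs_length]; omega
  · rw [red_jobs_length, red_edges_length]
  · intro p hp
    simp only [red, Inst.jobs, List.mem_map, List.mem_range] at hp
    obtain ⟨v, hv, rfl⟩ := hp
    unfold jobf
    split_ifs with h1 h2 h3
    · norm_num
    · norm_num
    · have : v / 2 < x.1.length := by omega
      show 0 < 2 * x.1.getD (v / 2) 0
      rw [List.getD_eq_getElem _ _ this]
      have := hx _ (List.getElem_mem this)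
      omega
    · show 0 < HH x
      unfold HH; omega

theorem rel_eq {v : ℕ} (hv : v < 2 * x.1.length + 2) : (red x).release v = (jobf x v).1 := by
  unfold Inst.release
  have : (red x).jobs = (List.range (2 * x.1.length + 2)).map (fun v => jobf x v) := rfl
  rw [this, getD_map_range _ _ _ hv]

theorem han_eq {v : ℕ} (hv : v < 2 * x.1.length + 2) : (red x).handling v = (jobf x v).2 := by
  unfold Inst.handling
  have : (red x).jobs = (List.range (2 * x.1.length + 2)).map (fun v => jobf x v) := rfl
  rw [this, getD_map_range _ _ _ hv]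

theorem w_eq {e : ℕ} (he : e < 2 * x.1.length + 1) : (red x).w e = (edgef x e).1 := by
  unfold Inst.w
  have : (red x).edges = (List.range (2 * x.1.length + 1)).map (fun v => edgef x v) := rfl
  rw [this, getD_map_range _ _ _ he]

theorem w_even {i : ℕ} (hi : i ≤ x.1.length) : (red x).w (2 * i) = 1 := by
  rw [w_eq x (by omega)]
  unfold edgef
  rw [if_neg (by omega)]

theorem w_odd {i : ℕ} (hi : i < x.1.length) : (red x).w (2 * i + 1) = x.1.getD i 0 := by
  rw [w_eq x (by omega)]
  unfold edgef
  rw [if_pos (by omega)]
  have : (2 * i + 1) / 2 = i := by omega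
  rw [this]

theorem rel_zero : (red x).release 0 = 0 := by
  rw [rel_eq x (by omega)]; rfl
theorem han_zero : (red x).handling 0 = 1 := by
  rw [han_eq x (by omega)]; rfl
theorem rel_item {i : ℕ} (hi : i < x.1.length) : (red x).release (2 * i + 1) =
    i * HH x + (LL x + 2 * x.1.sum + 2 * x.2 + 2) := by
  rw [rel_eq x (by omega)]
  unfold jobf
  rw [if_neg (by omega), if_neg (by omega), if_pos (by omega)]
  have : (2 * i + 1) / 2 = i := by omega
  rw [this]
theorem han_item {i : ℕ} (hi : i < x.1.length) : (red x).handling (2 * i + 1) =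
    2 * x.1.getD i 0 := by
  rw [han_eq x (by omega)]
  unfold jobf
  rw [if_neg (by omega), if_neg (by omega), if_pos (by omega)]
  have : (2 * i + 1) / 2 = i := by omega
  rw [this]
theorem rel_station {i : ℕ} (hi : i < x.1.length) : (red x).release (2 * i + 2) = 0 := by
  rw [rel_eq x (by omega)]
  unfold jobf
  rw [if_neg (by omega), if_neg (by omega), if_neg (by omega)]
theorem han_station {i : ℕ} (hi : i < x.1.length) : (red x).handling (2 * i + 2) = HH x := by
  rw [han_eq x (by omega)]
  unfold jobf
  rw [if_neg (by omega), if_neg (by omega), if_neg (by omega)]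
theorem rel_far : (red x).release (2 * x.1.length + 1) = RR x := by
  rw [rel_eq x (by omega)]
  unfold jobf
  rw [if_neg (by omega), if_pos rfl]
theorem han_far : (red x).handling (2 * x.1.length + 1) = 1 := by
  rw [han_eq x (by omega)]
  unfold jobf
  rw [if_neg (by omega), if_pos rfl]

theorem X_zero : (red x).X 0 = 0 := by simp [Inst.X]
theorem X_odd {i : ℕ} (hi : i ≤ x.1.length) : (red x).X (2 * i + 1) = (red x).X (2 * i) + 1 := by
  unfold Inst.X
  rw [Finset.sum_range_succ, w_even x hi]
theorem X_even {i : ℕ} (hi : i < x.1.length) :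
    (red x).X (2 * i + 2) = (red x).X (2 * i + 1) + x.1.getD i 0 := by
  unfold Inst.X
  rw [Finset.sum_range_succ, w_odd x hi]

/-- partial sums -/
theorem X_two_mul {i : ℕ} (hi : i ≤ x.1.length) :
    (red x).X (2 * i) = i + ∑ k ∈ Finset.range i, x.1.getD k 0 := by
  induction i with
  | zero => simp [X_zero]
  | succ i ih =>
    have h1 : 2 * (i + 1) = 2 * i + 2 := by ring
    rw [h1, X_even x (by omega), X_odd x (by omega), ih (by omega), Finset.sum_range_succ]
    ring

theorem X_far : (red x).X (2 * x.1.length + 1) = LL x := by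
  rw [X_odd x (le_refl _), X_two_mul x (le_refl _), sum_getD]
  unfold LL
  ring

theorem partial_le {i : ℕ} (hi : i ≤ x.1.length) : ∑ k ∈ Finset.range i, x.1.getD k 0 ≤ x.1.sum := by
  rw [← sum_getD]
  exact Finset.sum_le_sum_of_subset (Finset.range_subset_range.2 hi)

theorem total_handling : ∑ v ∈ Finset.range (2 * x.1.length + 2), (red x).handling v =
    MM x + 2 * x.1.sum + 1 := by
  rw [Finset.sum_range_succ, han_far, sum_range_odd]
  have h1 : ∑ i ∈ Finset.range x.1.length, ((red x).handling (2 * i) + (red x).handling (2 * i + 1)) +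
      (red x).handling (2 * x.1.length) = MM x + 2 * x.1.sum := by
    have h2 : ∀ n ≤ x.1.length, ∑ i ∈ Finset.range n, ((red x).handling (2 * i) +
        (red x).handling (2 * i + 1)) + (red x).handling (2 * n) =
        1 + n * HH x + 2 * ∑ k ∈ Finset.range n, x.1.getD k 0 := by
      intro n
      induction n with
      | zero => intro _; simp [han_zero]
      | succ n ih =>
        intro hn
        rw [Finset.sum_range_succ, Finset.sum_range_succ]
        have h3 := ih (by omega)
        have h4 : 2 * (n + 1) = 2 * n + 2 := by ring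
        rw [h4, han_station x (by omega), han_item x (by omega)]
        have h5 : (n + 1) * HH x = n * HH x + HH x := by ring
        rw [h5]
        omega
    rw [h2 _ (le_refl _), sum_getD]
    unfold MM
    ring
  rw [h1]

end facts

end Pool.Agent.K4H52.VSP
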