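import Mathlib
import Pool.Agent.K4H52.VSP.Red

/-!
# From a schedule to a subset
-/

namespace Pool.Agent.K4H52.VSP

open Pool.Agent.NPC Pool.Agent.NPC.R671.SS

theorem perm_sum {l : List ℕ} {N : ℕ} (h : l.Perm (List.range N)) (F : ℕ → ℕ) :
    (l.map F).sum = ∑ v ∈ Finset.range N, F v := by
  have hn : l.Nodup := h.nodup_iff.2 List.nodup_range
  rw [← List.sum_toFinset F hn]
  refine Finset.sum_congr ?_ fun _ _ => rfl
  ext v
  rw [List.mem_toFinset, h.mem_iff, List.mem_range, Finset.mem_range]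

theorem nodup_sum_le {l : List ℕ} (hl : l.Nodup) (F : ℕ → ℕ) (s : Finset ℕ)
    (h : ∀ v ∈ l, v ∈ s) : (l.map F).sum ≤ ∑ v ∈ s, F v := by
  rw [← List.sum_toFinset F hl]
  exact Finset.sum_le_sum_of_subset fun v hv => h v (List.mem_toFinset.1 hv)

theorem le_nodup_sum {l : List ℕ} (hl : l.Nodup) (F : ℕ → ℕ) (s : Finset ℕ)
    (h : ∀ v ∈ s, v ∈ l) : ∑ v ∈ s, F v ≤ (l.map F).sum := by
  rw [← List.sum_toFinset F hl]
  exact Finset.sum_le_sum_of_subset fun v hv => List.mem_toFinset.2 (h v hv)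

theorem plen_append_ge (δ : ℕ → ℕ → ℕ) (tri : ∀ a b c, δ a c ≤ δ a b + δ b c) (a c : ℕ)
    (l : List ℕ) : δ a c ≤ plen δ (a :: (l ++ [c])) := by
  have h := plen_sublist δ tri (l' := [c]) (l := l ++ [c]) (List.sublist_append_right l [c]) a
  simpa using h

theorem plen_append_ge2 (δ : ℕ → ℕ → ℕ) (tri : ∀ a b c, δ a c ≤ δ a b + δ b c) (a b c : ℕ)
    (l l' : List ℕ) : δ a b + δ b c ≤ plen δ (a :: (l ++ b :: (l' ++ [c]))) := by
  have h0 : ([b, c] : List ℕ).Sublist (l ++ b :: (l' ++ [c])) := by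
    refine List.Sublist.trans ?_ (List.sublist_append_right l _)
    exact List.Sublist.cons_cons b (List.sublist_append_right l' [c])
  have h := plen_sublist δ tri h0 a
  simpa using h

/-- the partial sums of handling times -/
theorem left_handling (x : List ℕ × ℕ) {i : ℕ} (hi : i < x.1.length) :
    ∑ v ∈ Finset.range (2 * i + 1), (red x).handling v ≤ 1 + i * HH x + 2 * x.1.sum := by
  rw [sum_range_odd]
  have h2 : ∀ n ≤ x.1.length, ∑ i ∈ Finset.range n, ((red x).handling (2 * i) +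
      (red x).handling (2 * i + 1)) + (red x).handling (2 * n) =
      1 + n * HH x + 2 * ∑ k ∈ Finset.range n, x.1.getD k 0 := by
    intro n
    induction n with
    | zero => intro _; simp [han_zero]
    | succ n ih =>
      intro hn
      rw [Finset.sum_range_succ, Finset.sum_range_succ]
      have h3 := ih (by omega)
      have h4 : 2 * (n + 1) = 2 * n + 2 := by ring
      rw [h4, han_station x (by omega), han_item x (by omega)]
      have h5 : (n + 1) * HH x = n * HH x + HH x := by ring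
      rw [h5]
      omega
  rw [h2 _ hi.le]
  have := partial_le x hi.le
  omega

theorem travel_X_right (x : List ℕ × ℕ) {u v : ℕ} (h : u ≤ v) :
    (red x).travel u v + (red x).X u = (red x).X v := (red x).travel_right h

theorem travel_X_left (x : List ℕ × ℕ) {u v : ℕ} (h : v ≤ u) :
    (red x).travel u v + (red x).X v = (red x).X u := (red x).travel_left (red_sym x) h

/-- An item processed before the far job needs a job to the right of it before. -/
theorem exists_right (x : List ℕ × ℕ) (π₁ π₂ : List ℕ) {i : ℕ}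
    (hi : i < x.1.length) (ρ₁ ρ₂ : List ℕ) (hρ : π₁ = ρ₁ ++ (2 * i + 1) :: ρ₂)
    (hperm : (π₁ ++ (2 * x.1.length + 1) :: π₂).Perm (List.range (2 * x.1.length + 2)))
    (hC : (red x).completion 0 0 (π₁ ++ (2 * x.1.length + 1) :: π₂) ≤ KK x) :
    ∃ w ∈ ρ₁, 2 * i + 2 ≤ w := by
  by_contra hcon
  push Not at hcon
  subst hρ
  set F := 2 * x.1.length + 1 with hF
  have hnd : ((ρ₁ ++ (2 * i + 1) :: ρ₂) ++ F :: π₂).Nodup := hperm.nodup_iff.2 List.nodup_range
  have e1 : (ρ₁ ++ (2 * i + 1) :: ρ₂) ++ F :: π₂ = ρ₁ ++ (2 * i + 1) :: (ρ₂ ++ F :: π₂) := by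
    simp
  rw [e1] at hnd hperm hC
  have hnd' := List.nodup_append.1 hnd
  have hlt : ∀ v ∈ ρ₁, v ∈ Finset.range (2 * i + 1) := by
    intro v hv
    rw [Finset.mem_range]
    have h1 := hcon v hv
    have h2 : v ≠ 2 * i + 1 := hnd'.2.2 v hv _ (List.mem_cons_self)
    omega
  have hsum1 : (ρ₁.map (red x).handling).sum ≤ 1 + i * HH x + 2 * x.1.sum :=
    (nodup_sum_le hnd'.1 _ _ hlt).trans (left_handling x hi)
  have htot := perm_sum hperm (red x).handling
  rw [total_handling, List.map_append, List.sum_append, List.map_cons, List.sum_cons] at htot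
  have hlow := (red x).lower2 (ρ₂ ++ F :: π₂) (2 * i + 1) ρ₁ 0 0
  rw [rel_item x hi, red_start] at hlow
  have hpl : (red x).travel (2 * i + 1) F + (red x).travel F 0 ≤
      plen (red x).travel ((2 * i + 1) :: ((ρ₂ ++ F :: π₂) ++ [0])) := by
    have := plen_append_ge2 (red x).travel ((red x).travel_tri (red_sym x)) (2 * i + 1) F 0 ρ₂ π₂
    simpa using this
  have t1 := travel_X_right x (u := 2 * i + 1) (v := F) (by omega)
  have t2 := travel_X_left x (u := F) (v := 0) (by omega)
  rw [X_zero] at t2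
  have t3 : (red x).X F = LL x := X_far x
  have t4 : (red x).X (2 * i + 1) = i + ∑ k ∈ Finset.range i, x.1.getD k 0 + 1 := by
    rw [X_odd x hi.le, X_two_mul x hi.le]
  have t5 : (red x).X (2 * i + 1) ≤ LL x := by
    rw [← t3, ← t1]; omega
  unfold KK at hC
  generalize (List.map (red x).handling ρ₁).sum = s1 at *
  generalize (List.map (red x).handling (ρ₂ ++ F :: π₂)).sum = s2 at *
  generalize (red x).completion 0 0 (ρ₁ ++ (2 * i + 1) :: (ρ₂ ++ F :: π₂)) = C at *
  generalize (red x).handling (2 * i + 1) = h1 at *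
  generalize plen (red x).travel ((2 * i + 1) :: ((ρ₂ ++ F :: π₂) ++ [0])) = P at *
  omega

theorem sep_four (x : List ℕ × ℕ) (π₁ π₂ : List ℕ) {i : ℕ}
    (hi : i < x.1.length) (ρ₁ ρ₂ : List ℕ) (hρ : π₁ = ρ₁ ++ (2 * i + 1) :: ρ₂)
    (w : ℕ) (hw : w ∈ ρ₁) (hw2 : 2 * i + 2 ≤ w) :
    4 ≤ plen (sep (2 * i + 1)) (0 :: (π₁ ++ (2 * x.1.length + 1) :: π₂ ++ [0])) := by
  subst hρ
  set F := 2 * x.1.length + 1 with hF
  obtain ⟨σ₁, σ₂, rfl⟩ := List.append_of_mem hw
  have hsub : ([w, 2 * i + 1, F, 0] : List ℕ).Sublist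
      ((σ₁ ++ w :: σ₂ ++ (2 * i + 1) :: ρ₂) ++ F :: π₂ ++ [0]) := by
    have e : (σ₁ ++ w :: σ₂ ++ (2 * i + 1) :: ρ₂) ++ F :: π₂ ++ [0] =
        σ₁ ++ (w :: (σ₂ ++ ((2 * i + 1) :: (ρ₂ ++ (F :: (π₂ ++ [0])))))) := by simp
    rw [e]
    refine List.Sublist.trans ?_ (List.sublist_append_right σ₁ _)
    refine List.Sublist.cons_cons w ?_
    refine List.Sublist.trans ?_ (List.sublist_append_right σ₂ _)
    refine List.Sublist.cons_cons _ ?_
    refine List.Sublist.trans ?_ (List.sublist_append_right ρ₂ _)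
    refine List.Sublist.cons_cons F ?_
    exact List.sublist_append_right π₂ [0]
  have h := plen_sublist (sep (2 * i + 1)) (sep_tri _) hsub 0
  refine le_trans ?_ h
  simp only [plen_cons_cons, plen_single]
  unfold sep
  rw [if_pos (by omega), if_pos (by omega), if_pos (by omega), if_pos (by omega)]

theorem sep_two (e F : ℕ) (he : e < F) (π₁ π₂ : List ℕ) :
    2 ≤ plen (sep e) (0 :: (π₁ ++ F :: π₂ ++ [0])) := by
  have h := plen_append_ge2 (sep e) (sep_tri e) 0 F 0 π₁ π₂
  have e1 : π₁ ++ F :: π₂ ++ [0] = π₁ ++ F :: (π₂ ++ [0]) := by simp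
  rw [e1]
  refine le_trans ?_ h
  unfold sep
  rw [if_pos (by omega), if_pos (by omega)]

/-- A good schedule gives a subset with the right sum. -/
theorem of_feasible (x : List ℕ × ℕ) (hf : (red x).Feasible) : SubsetSum x := by
  classical
  obtain ⟨π, hperm, hC⟩ := hf
  rw [red_jobs_length] at hperm
  rw [red_start, red_bound] at hC
  set n := x.1.length with hn
  set F := 2 * n + 1 with hF
  have hFm : F ∈ π := by rw [hperm.mem_iff, List.mem_range]; omega
  obtain ⟨π₁, π₂, rfl⟩ := List.append_of_mem hFm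
  have hnd : (π₁ ++ F :: π₂).Nodup := hperm.nodup_iff.2 List.nodup_range
  have hnd' := List.nodup_append.1 hnd
  have hnd2 : π₂.Nodup := (List.nodup_cons.1 hnd'.2.1).2
  -- the chosen items
  set S : Finset ℕ := (Finset.range n).filter (fun i => 2 * i + 1 ∈ π₁) with hS
  rw [show SubsetSum x ↔ ∃ s : List ℕ, s.Sublist x.1 ∧ s.sum = x.2 from Iff.rfl, sublist_sum_iff]
  refine ⟨fun i => decide (2 * i + 1 ∈ π₁), ?_⟩
  have hSs : (∑ k ∈ Finset.range x.1.length, if (decide (2 * k + 1 ∈ π₁)) = true then x.1.getD k 0 else 0)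
      = ∑ k ∈ S, x.1.getD k 0 := by
    rw [hS, Finset.sum_filter]
    refine Finset.sum_congr rfl fun k _ => ?_
    simp
  rw [hSs]
  have hcompl : ∑ k ∈ S, x.1.getD k 0 + ∑ k ∈ (Finset.range n).filter (fun i => ¬ 2 * i + 1 ∈ π₁),
      x.1.getD k 0 = x.1.sum := by
    rw [hS, Finset.sum_filter_add_sum_filter_not, sum_getD]
  -- the items after the far job
  have hafter : ∑ k ∈ (Finset.range n).filter (fun i => ¬ 2 * i + 1 ∈ π₁), 2 * x.1.getD k 0 ≤
      (π₂.map (red x).handling).sum := by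
    have h1 := le_nodup_sum hnd2 (red x).handling
      (((Finset.range n).filter (fun i => ¬ 2 * i + 1 ∈ π₁)).image (fun i => 2 * i + 1)) (by
        intro v hv
        rw [Finset.mem_image] at hv
        obtain ⟨i, hi, rfl⟩ := hv
        rw [Finset.mem_filter, Finset.mem_range] at hi
        have h2 : 2 * i + 1 ∈ π₁ ++ F :: π₂ := by
          rw [hperm.mem_iff, List.mem_range]; omega
        rcases List.mem_append.1 h2 with h3 | h3
        · exact absurd h3 hi.2
        · rcases List.mem_cons.1 h3 with h4 | h4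
          · omega
          · exact h4)
    refine le_trans (le_of_eq ?_) h1
    rw [Finset.sum_image (by intro a _ b _ h; simp only at h; omega)]
    refine Finset.sum_congr rfl fun k hk => ?_
    rw [Finset.mem_filter, Finset.mem_range] at hk
    rw [han_item x hk.1]
  have hlow := (red x).lower2 π₂ F π₁ 0 0
  have hpl := plen_append_ge (red x).travel ((red x).travel_tri (red_sym x)) F 0 π₂
  have t2 := travel_X_left x (u := F) (v := 0) (by omega)
  rw [X_zero] at t2
  have t3 : (red x).X F = LL x := X_far x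
  rw [rel_far x, han_far x, red_start] at hlow
  rw [← Finset.mul_sum] at hafter
  -- total travel
  have htr := (red x).lower1 (π₁ ++ F :: π₂) 0 0
  rw [red_start, perm_sum hperm, total_handling, (red x).plen_travel (red_sym x),
    red_edges_length] at htr
  have hc : ∀ e ∈ Finset.range (2 * n + 1), (red x).w e * (2 + if e % 2 = 1 ∧ e / 2 ∈ S then 2 else 0) ≤
      (red x).w e * plen (sep e) (0 :: (π₁ ++ F :: π₂ ++ [0])) := by
    intro e he
    rw [Finset.mem_range] at he
    refine Nat.mul_le_mul_left _ ?_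
    split_ifs with h
    · obtain ⟨h1, h2⟩ := h
      rw [hS, Finset.mem_filter, Finset.mem_range] at h2
      obtain ⟨ρ₁, ρ₂, hρ⟩ := List.append_of_mem h2.2
      obtain ⟨w, hw, hw2⟩ := exists_right x π₁ π₂ h2.1 ρ₁ ρ₂ hρ hperm hC
      have := sep_four x π₁ π₂ h2.1 ρ₁ ρ₂ hρ w hw hw2
      have he2 : 2 * (e / 2) + 1 = e := by omega
      rw [he2] at this
      exact this
    · exact sep_two e F (by omega) π₁ π₂
  have hsumc := Finset.sum_le_sum hc
  have hlhs : ∑ e ∈ Finset.range (2 * n + 1), (red x).w e * (2 + if e % 2 = 1 ∧ e / 2 ∈ S then 2 else 0)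
      = 2 * LL x + 2 * ∑ k ∈ S, x.1.getD k 0 := by
    have h1 : ∑ e ∈ Finset.range (2 * n + 1), (red x).w e * (2 + if e % 2 = 1 ∧ e / 2 ∈ S then 2 else 0)
      = 2 * (red x).X (2 * n + 1) + ∑ e ∈ Finset.range (2 * n + 1),
        (red x).w e * (if e % 2 = 1 ∧ e / 2 ∈ S then 2 else 0) := by
      unfold Inst.X
      rw [Finset.mul_sum, ← Finset.sum_add_distrib]
      refine Finset.sum_congr rfl fun e _ => ?_
      ring
    have h2 : ∑ e ∈ Finset.range (2 * n + 1),
        (red x).w e * (if e % 2 = 1 ∧ e / 2 ∈ S then 2 else 0) = 2 * ∑ k ∈ S, x.1.getD k 0 := by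
      rw [sum_range_odd]
      have h3 : ((red x).w (2 * n) * if 2 * n % 2 = 1 ∧ 2 * n / 2 ∈ S then 2 else 0) = 0 := by
        rw [if_neg (by omega), mul_zero]
      rw [h3, add_zero, hS, Finset.sum_filter, Finset.mul_sum]
      refine Finset.sum_congr rfl fun k hk => ?_
      rw [Finset.mem_range] at hk
      have h4 : (2 * k) % 2 = 0 := by omega
      have h5 : (2 * k + 1) % 2 = 1 := by omega
      have h6 : (2 * k + 1) / 2 = k := by omega
      rw [h4, h5, h6, w_odd x hk]
      simp only [Finset.mem_filter, Finset.mem_range, hk, true_and]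
      simp
      split_ifs <;> ring
    rw [h1, h2, t3]
  rw [hlhs] at hsumc
  unfold KK at hC
  have hRR : RR x = LL x + MM x + 4 * x.2 := rfl
  generalize ∑ e ∈ Finset.range (2 * n + 1), (red x).w e * plen (sep e) (0 :: (π₁ ++ F :: π₂ ++ [0])) = Q at *
  generalize ∑ k ∈ (Finset.range n).filter (fun i => ¬ 2 * i + 1 ∈ π₁), x.1.getD k 0 = s1 at *
  generalize ∑ k ∈ S, x.1.getD k 0 = s2 at *
  generalize (List.map (red x).handling π₂).sum = s3 at *
  generalize (red x).completion 0 0 (π₁ ++ F :: π₂) = C at *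
  generalize plen (red x).travel (F :: (π₂ ++ [0])) = P at *
  omega

end Pool.Agent.K4H52.VSP
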