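import Mathlib
import Pool.Agent.K4H52.VSP.Hard1
import Pool.Agent.NPC.Dec

/-!
# From a subset to a schedule; the main theorem
-/

namespace Pool.Agent.K4H52.VSP

open Pool.Agent.NPC Pool.Agent.NPC.R671.SS

/-- the part of the schedule on the way to the right -/
def fwd (b : ℕ → Bool) : ℕ → List ℕ
  | 0 => []
  | m + 1 => fwd b m ++ (if b m then [2 * m + 2, 2 * m + 1] else [2 * m + 2])

/-- the part of the schedule on the way back -/
def bwd (b : ℕ → Bool) : ℕ → List ℕ
  | 0 => []
  | m + 1 => (if b m then [] else [2 * m + 1]) ++ bwd b m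

/-- the schedule -/
def sched (b : ℕ → Bool) (n : ℕ) : List ℕ := (0 :: fwd b n) ++ (2 * n + 1) :: bwd b n

theorem fwd_bwd (b : ℕ → Bool) (m : ℕ) :
    (0 :: (fwd b m ++ bwd b m)).Perm (List.range (2 * m + 1)) := by
  induction m with
  | zero => simp [fwd, bwd]
  | succ m ih =>
    have h1 : fwd b (m + 1) ++ bwd b (m + 1) = fwd b m ++ ([2 * m + 2, 2 * m + 1] ++ bwd b m) := by
      simp only [fwd, bwd]
      cases b m <;> simp
    have h2 : 2 * (m + 1) + 1 = 2 * m + 1 + 1 + 1 := by ring
    rw [h1, h2, List.range_succ, List.range_succ]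
    refine List.Perm.trans ?_ ((ih.append_right [2 * m + 1]).append_right [2 * m + 1 + 1])
    have h3 : (0 :: (fwd b m ++ ([2 * m + 2, 2 * m + 1] ++ bwd b m))) =
        (0 :: fwd b m) ++ ([2 * m + 2, 2 * m + 1] ++ bwd b m) := rfl
    have h4 : (0 :: (fwd b m ++ bwd b m)) ++ [2 * m + 1] ++ [2 * m + 1 + 1] =
        (0 :: fwd b m) ++ (bwd b m ++ [2 * m + 1, 2 * m + 2]) := by simp
    rw [h3, h4]
    refine List.Perm.append_left _ ?_
    refine List.Perm.trans (List.perm_append_comm) (List.Perm.append_left _ ?_)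
    exact List.Perm.swap _ _ _

theorem sched_perm (b : ℕ → Bool) (n : ℕ) : (sched b n).Perm (List.range (2 * n + 2)) := by
  have h : 2 * n + 2 = 2 * n + 1 + 1 := rfl
  rw [h, List.range_succ]
  refine List.Perm.trans ?_ ((fwd_bwd b n).append_right [2 * n + 1])
  unfold sched
  have h1 : (0 :: (fwd b n ++ bwd b n)) ++ [2 * n + 1] = (0 :: fwd b n) ++ (bwd b n ++ [2 * n + 1]) := by
    simp
  rw [h1]
  refine List.Perm.append_left _ ?_
  exact (List.perm_append_comm (l₁ := [2 * n + 1]) (l₂ := bwd b n))

theorem fwd_reach (x : List ℕ × ℕ) (b : ℕ → Bool) (m : ℕ) (hm : m ≤ x.1.length) :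
    ∃ u T, (red x).Reach (0 :: fwd b m) u T ∧ u ≤ 2 * m ∧
      T + (red x).X (2 * m) ≤ (red x).X u + ((red x).X (2 * m) + 1 + m * HH x +
        4 * ∑ k ∈ Finset.range m, (if b k then x.1.getD k 0 else 0)) := by
  induction m with
  | zero =>
    refine ⟨0, 1, ?_, le_refl _, by simp; omega⟩
    have h := (red x).reach_nil.snoc 0 1
      (by rw [red_start, han_zero]; simp [Inst.travel]) (by rw [rel_zero, han_zero])
    exact h
  | succ m ih =>
    obtain ⟨u, T, hR, hu, hT⟩ := ih (by omega)
    have hm' : m < x.1.length := by omega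
    have e1 : 2 * (m + 1) = 2 * m + 2 := by ring
    have e2 : (m + 1) * HH x = m * HH x + HH x := by ring
    have x1 := X_even x hm'
    have x2 := X_odd x hm'.le
    have t1 := travel_X_right x (u := u) (v := 2 * m + 2) (by omega)
    -- the station
    have hst := hR.snoc (2 * m + 2) (T + (red x).travel u (2 * m + 2) + HH x)
      (by rw [han_station x hm']) (by rw [rel_station x hm', han_station x hm']; omega)
    rw [Finset.sum_range_succ, e1, e2]
    by_cases hb : b m = true
    · have hit := hst.snoc (2 * m + 1) ((red x).X (2 * m + 2) + 1 + m * HH x +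
        4 * ∑ k ∈ Finset.range m, (if b k then x.1.getD k 0 else 0) + HH x + x.1.getD m 0 +
          2 * x.1.getD m 0)
        (by
          rw [han_item x hm']
          have t2 := travel_X_left x (u := 2 * m + 2) (v := 2 * m + 1) (by omega)
          omega)
        (by
          rw [rel_item x hm', han_item x hm']
          have hH : HH x = LL x + 2 * x.1.sum + 2 * x.2 + 1 := rfl
          omega)
      have this : (0 :: fwd b m) ++ [2 * m + 2] ++ [2 * m + 1] = (0 :: fwd b (m + 1)) := by
        simp [fwd, hb]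
      rw [this] at hit
      refine ⟨2 * m + 1, _, hit, by omega, ?_⟩
      rw [if_pos hb]
      omega
    · have this : (0 :: fwd b m) ++ [2 * m + 2] = (0 :: fwd b (m + 1)) := by
        simp [fwd, hb]
      rw [this] at hst
      refine ⟨2 * m + 2, _, hst, by omega, ?_⟩
      rw [if_neg hb]
      omega

theorem bwd_le (x : List ℕ × ℕ) (b : ℕ → Bool) (m : ℕ) (hm : m ≤ x.1.length) :
    ∀ u T, 2 * m ≤ u → RR x ≤ T → (red x).completion u T (bwd b m) ≤ T + (red x).X u +
      2 * ∑ k ∈ Finset.range m, (if b k then 0 else x.1.getD k 0) := by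
  induction m with
  | zero =>
    intro u T _ _
    simp only [bwd]
    rw [Inst.completion_nil, red_start]
    have t2 := travel_X_left x (u := u) (v := 0) (by omega)
    rw [X_zero] at t2
    omega
  | succ m ih =>
    intro u T hu hT
    have hm' : m < x.1.length := by omega
    rw [Finset.sum_range_succ]
    by_cases hb : b m = true
    · rw [if_pos hb]
      simp only [bwd, if_pos hb, List.nil_append]
      exact ih (by omega) u T (by omega) hT
    · rw [if_neg hb]
      simp only [bwd, if_neg hb, List.singleton_append]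
      rw [Inst.completion_cons, rel_item x hm', han_item x hm']
      have t1 := travel_X_left x (u := u) (v := 2 * m + 1) (by omega)
      have hrel : m * HH x + (LL x + 2 * x.1.sum + 2 * x.2 + 2) ≤ RR x := by
        have hH : HH x = LL x + 2 * x.1.sum + 2 * x.2 + 1 := rfl
        have hM : MM x = 1 + x.1.length * HH x := rfl
        have h1 : (m + 1) * HH x ≤ x.1.length * HH x := Nat.mul_le_mul_right _ hm'
        have h2 : (m + 1) * HH x = m * HH x + HH x := by ring
        have hR : RR x = LL x + MM x + 4 * x.2 := rfl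
        omega
      rw [max_eq_left (by omega)]
      have h := ih (by omega) (2 * m + 1) (T + (red x).travel u (2 * m + 1) + 2 * x.1.getD m 0)
        (by omega) (by omega)
      omega

theorem to_feasible (x : List ℕ × ℕ) (h : SubsetSum x) : (red x).Feasible := by
  rw [show SubsetSum x ↔ ∃ s : List ℕ, s.Sublist x.1 ∧ s.sum = x.2 from Iff.rfl,
    sublist_sum_iff] at h
  obtain ⟨b, hb⟩ := h
  refine ⟨sched b x.1.length, ?_, ?_⟩
  · rw [red_jobs_length]; exact sched_perm b _
  · rw [red_bound]
    obtain ⟨u, T, hR, hu, hT⟩ := fwd_reach x b x.1.length (le_refl _)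
    have t1 := travel_X_right x (u := u) (v := 2 * x.1.length + 1) (by omega)
    have x3 : (red x).X (2 * x.1.length + 1) = LL x := X_far x
    have x4 := X_odd x (le_refl x.1.length)
    have hM : MM x = 1 + x.1.length * HH x := rfl
    have hRR : RR x = LL x + MM x + 4 * x.2 := rfl
    rw [hb] at hT
    have hfar := hR.snoc (2 * x.1.length + 1) (RR x + 1)
      (by rw [han_far]; omega)
      (by rw [rel_far, han_far])
    have h1 := hfar (bwd b x.1.length)
    have e : (0 :: fwd b x.1.length) ++ [2 * x.1.length + 1] ++ bwd b x.1.length =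
        sched b x.1.length := by simp [sched]
    rw [e] at h1
    have h2 := bwd_le x b x.1.length (le_refl _) (2 * x.1.length + 1) (RR x + 1) (by omega)
      (by omega)
    rw [x3] at h2
    have h3 : ∑ k ∈ Finset.range x.1.length, (if b k then 0 else x.1.getD k 0) + x.2 = x.1.sum := by
      rw [← hb, ← Finset.sum_add_distrib, ← sum_getD]
      refine Finset.sum_congr rfl fun k _ => ?_
      split_ifs <;> simp
    have hK : KK x = 2 * LL x + MM x + 2 * x.1.sum + 1 + 2 * x.2 := rfl
    omega

theorem uPoly_N {α : Type} [TEnc α] {l : α → List ℕ} (h : Poly l) (c : ℕ) :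
    UPoly (fun a => 2 * (l a).length + c) :=
  UPoly.add ((UPoly.const 2).mul (UPoly.length h)) (UPoly.const c)

theorem poly_rangeN {α : Type} [TEnc α] {l : α → List ℕ} (h : Poly l) (c : ℕ) :
    Poly (fun a => List.range (2 * (l a).length + c)) := (uPoly_N h c).range

attribute [fun_prop] poly_rangeN

theorem red_poly : Poly red := by
  unfold red jobf edgef KK RR MM HH LL
  fun_prop

theorem correct (x : List ℕ × ℕ) : SubsetSum x ↔ (red x).Feasible :=
  ⟨to_feasible x, of_feasible x⟩

theorem hardPr : HardPr (fun I : Inst => I.Valid ∧ I.SymEnd) Inst.Feasible :=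
  hardPr_SubsetSum.trans red_poly
    (fun x hx => ⟨red_valid x fun a ha => (hx.1 a ha).1, rfl, fun p hp =>
      ⟨red_sym x p hp, red_pos x (fun a ha => (hx.1 a ha).1) p hp⟩⟩)
    (fun x _ => correct x)

theorem npHard : NPHardP PathVSP := by
  refine HardI.toNPHardP ?_
  intro L hL
  obtain ⟨f, hf, hp, h⟩ := hardPr L hL
  exact ⟨f, hf, fun x => (h x).trans ⟨fun h' => ⟨(hp x).1, h'⟩, fun h' => h'.2⟩⟩

theorem npHardSymEnd : NPHardP PathVSPSymEnd := by
  refine HardI.toNPHardP ?_
  intro L hL
  obtain ⟨f, hf, hp, h⟩ := hardPr L hL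
  exact ⟨f, hf, fun x => (h x).trans ⟨fun h' => ⟨(hp x).1, (hp x).2, h'⟩, fun h' => h'.2.2⟩⟩

end Pool.Agent.K4H52.VSP
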